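import Pool.Agent.helper32.PN.Spec

/-!
# Row pn:REM (MP_405bd9_al): removing a ribbon from a state with a long column
-/

set_option autoImplicit false

namespace Pool.Agent.PN

open Module Polynomial Pool.Agent.helper27.PC

lemma REM_mem (s : Bool) (K m h : ℕ) (T : St) (y : Lab) :
    y ∈ emb s K m h T ↔ y ≠ (s, h) ∧ (y.2 < m - K ∨ (m - K ≤ y.2 ∧ (y.1, y.2 - (m - K)) ∈ T)) := by
  unfold emb ext
  rw [Finset.mem_erase, Finset.mem_union, Finset.mem_product, Finset.mem_image, Finset.mem_range]
  constructor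
  · rintro ⟨h1, h2⟩
    refine ⟨h1, ?_⟩
    rcases h2 with ⟨_, h2⟩ | ⟨z, hz, rfl⟩
    · exact Or.inl h2
    · right
      unfold up
      refine ⟨by simp, ?_⟩
      simpa using hz
  · rintro ⟨h1, h2⟩
    refine ⟨h1, ?_⟩
    rcases h2 with h2 | ⟨h2, h3⟩
    · exact Or.inl ⟨Finset.mem_univ _, h2⟩
    · right
      refine ⟨_, h3, ?_⟩
      unfold up
      exact Prod.ext rfl (by simp only []; omega)

lemma REM_remv (s : Bool) (K m h a : ℕ) (T : St) (ha : 1 ≤ a) (hm : h + a + K < m) :
    remv a (emb s K m h T) = insert (s, h + a) ((remv a T).image (up (m - K))) := by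
  ext ⟨b, p⟩
  unfold remv
  rw [Finset.mem_filter, Finset.mem_insert, Finset.mem_image, REM_mem, REM_mem]
  unfold dn
  constructor
  · rintro ⟨⟨h1, h2⟩, h3, h4⟩
    simp only [] at h1 h2 h3 h4
    by_cases h5 : (b, p - a) = (s, h)
    · left
      rw [Prod.mk.injEq] at h5 ⊢
      exact ⟨h5.1, by omega⟩
    · right
      rw [not_and] at h4
      have h6 := h4 h5
      rw [not_or, not_and] at h6
      obtain ⟨h7, h8⟩ := h6
      have h9 := h8 (by omega)
      rcases h2 with h2 | ⟨h2, h10⟩
      · omega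
      · refine ⟨(b, p - (m - K)), ?_, ?_⟩
        · rw [Finset.mem_filter]
          refine ⟨h10, ?_, ?_⟩
          · simp only []; omega
          · have : (b, p - (m - K) - a) = (b, p - a - (m - K)) := by
              rw [Prod.mk.injEq]; exact ⟨rfl, by omega⟩
            simp only []
            rw [this]
            exact h9
        · unfold up
          exact Prod.ext rfl (by simp only []; omega)
  · rintro (h1 | ⟨z, hz, h1⟩)
    · rw [Prod.mk.injEq] at h1
      obtain ⟨rfl, rfl⟩ := h1
      refine ⟨⟨?_, ?_⟩, ?_, ?_⟩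
      · intro h2
        rw [Prod.mk.injEq] at h2
        omega
      · left; simp only []; omega
      · simp only []; omega
      · intro h2
        apply h2.1
        rw [Prod.mk.injEq]
        exact ⟨rfl, by omega⟩
    · rw [Finset.mem_filter] at hz
      obtain ⟨hz1, hz2, hz3⟩ := hz
      unfold up at h1
      rw [Prod.mk.injEq] at h1
      obtain ⟨rfl, rfl⟩ := h1
      refine ⟨⟨?_, ?_⟩, ?_, ?_⟩
      · intro h2
        rw [Prod.mk.injEq] at h2
        omega
      · right
        refine ⟨by simp only []; omega, ?_⟩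
        have : (z.1, z.2 + (m - K) - (m - K)) = z := by
          exact Prod.ext rfl (by simp only []; omega)
        simp only []
        rw [this]
        exact hz1
      · simp only []; omega
      · rintro ⟨h2, h3 | ⟨h3, h4⟩⟩
        · simp only [] at h3; omega
        · apply hz3
          have : (z.1, z.2 + (m - K) - a - (m - K)) = (z.1, z.2 - a) := by
            rw [Prod.mk.injEq]; exact ⟨rfl, by omega⟩
          simp only [] at h4
          rw [this] at h4
          exact h4

lemma REM_up_inj (M : ℕ) : Function.Injective (up M) := by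
  intro x y hxy
  unfold up at hxy
  rw [Prod.mk.injEq] at hxy
  exact Prod.ext hxy.1 (by omega)

lemma REM_cnt1 (s : Bool) (K m h a : ℕ) (T : St) (ha : 1 ≤ a) (hm : h + a + K < m) :
    cnt (emb s K m h T) (s, h) a = a - 1 := by
  unfold cnt
  have h1 : (emb s K m h T).filter (fun y => y.1 = (s, h).1 ∧ (s, h).2 < y.2 ∧ y.2 < (s, h).2 + a) =
      (Finset.Ioo h (h + a)).image (fun q => ((s, q) : Lab)) := by
    ext ⟨b, p⟩
    rw [Finset.mem_filter, Finset.mem_image, REM_mem]
    constructor
    · rintro ⟨_, h1, h2, h3⟩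
      simp only [] at h1 h2 h3
      exact ⟨p, by rw [Finset.mem_Ioo]; omega, by rw [h1]⟩
    · rintro ⟨q, hq, h1⟩
      rw [Finset.mem_Ioo] at hq
      rw [Prod.mk.injEq] at h1
      obtain ⟨rfl, rfl⟩ := h1
      refine ⟨⟨?_, ?_⟩, rfl, hq.1, hq.2⟩
      · intro h2
        rw [Prod.mk.injEq] at h2
        omega
      · left; simp only []; omega
  rw [h1, Finset.card_image_of_injective _ (fun x y hxy => (Prod.mk.inj hxy).2), Nat.card_Ioo]
  omega

lemma REM_cnt2 (s : Bool) (K m h a : ℕ) (T : St) (hm : h + a + K < m) (l : Lab) :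
    cnt (emb s K m h T) (up (m - K) l) a = cnt T l a := by
  unfold cnt
  have h1 : (emb s K m h T).filter (fun y => y.1 = (up (m - K) l).1 ∧ (up (m - K) l).2 < y.2 ∧ y.2 < (up (m - K) l).2 + a) =
      (T.filter (fun y => y.1 = l.1 ∧ l.2 < y.2 ∧ y.2 < l.2 + a)).image (up (m - K)) := by
    ext ⟨b, p⟩
    rw [Finset.mem_filter, Finset.mem_image, REM_mem]
    unfold up
    constructor
    · rintro ⟨⟨_, h0⟩, h1, h2, h3⟩
      simp only [] at h0 h1 h2 h3
      refine ⟨(b, p - (m - K)), ?_, ?_⟩
      · rw [Finset.mem_filter]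
        refine ⟨?_, h1, ?_, ?_⟩
        · rcases h0 with h0 | h0
          · omega
          · exact h0.2
        · simp only []; omega
        · simp only []; omega
      · exact Prod.ext rfl (by simp only []; omega)
    · rintro ⟨z, hz, h1⟩
      rw [Finset.mem_filter] at hz
      rw [Prod.mk.injEq] at h1
      obtain ⟨rfl, rfl⟩ := h1
      obtain ⟨hz1, hz2, hz3, hz4⟩ := hz
      refine ⟨⟨?_, ?_⟩, hz2, ?_, ?_⟩
      · intro h2
        rw [Prod.mk.injEq] at h2
        omega
      · right
        refine ⟨by simp only []; omega, ?_⟩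
        have : (z.1, z.2 + (m - K) - (m - K)) = z := by
          exact Prod.ext rfl (by simp only []; omega)
        simp only []
        rw [this]
        exact hz1
      · simp only []; omega
      · simp only []; omega
  rw [h1, Finset.card_image_of_injective _ (REM_up_inj _)]

lemma REM_rem1 (s : Bool) (K m h a : ℕ) (T : St) (ha : 1 ≤ a) (hm : h + a + K < m) :
    rem a (emb s K m h T) (s, h + a) = emb s K m (h + a) T := by
  ext ⟨b, p⟩
  unfold rem dn
  rw [Finset.mem_insert, Finset.mem_erase, REM_mem, REM_mem]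
  simp only [add_tsub_cancel_right]
  constructor
  · rintro (h1 | ⟨h1, h2, h3⟩)
    · rw [Prod.mk.injEq] at h1
      obtain ⟨rfl, rfl⟩ := h1
      refine ⟨?_, Or.inl (by omega)⟩
      intro h2
      rw [Prod.mk.injEq] at h2
      omega
    · exact ⟨h1, h3⟩
  · rintro ⟨h1, h2⟩
    by_cases h3 : (b, p) = (s, h)
    · exact Or.inl h3
    · exact Or.inr ⟨h1, h3, h2⟩

lemma REM_rem2 (s : Bool) (K m h a : ℕ) (T : St) (ha : 1 ≤ a) (hm : h + a + K < m) (z : Lab) (hz : a ≤ z.2) :
    rem a (emb s K m h T) (up (m - K) z) = emb s K m h (rem a T z) := by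
  ext ⟨b, p⟩
  unfold rem dn up
  rw [Finset.mem_insert, Finset.mem_erase, REM_mem, REM_mem]
  rw [Finset.mem_insert, Finset.mem_erase]
  obtain ⟨c, q⟩ := z
  simp only [Prod.mk.injEq, ne_eq, not_and] at hz ⊢
  constructor
  · rintro (⟨rfl, h1⟩ | ⟨h1, h2, h3⟩)
    · refine ⟨by omega, Or.inr ⟨by omega, Or.inl ⟨rfl, by omega⟩⟩⟩
    · refine ⟨h2, ?_⟩
      rcases h3 with h3 | ⟨h3, h4⟩
      · exact Or.inl h3
      · exact Or.inr ⟨h3, Or.inr ⟨fun h5 => by have := h1 h5; omega, h4⟩⟩
  · rintro ⟨h1, h2⟩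
    rcases h2 with h2 | ⟨h2, h3 | ⟨h3, h4⟩⟩
    · exact Or.inr ⟨fun _ => by omega, h1, Or.inl h2⟩
    · exact Or.inl ⟨h3.1, by omega⟩
    · exact Or.inr ⟨fun h5 => by have := h3 h5; omega, h1, Or.inr ⟨h2, h4⟩⟩

/-- **REM** -/
theorem REM : REM_stmt := by
  intro s K m h a T w u ha hm
  rw [REM_remv s K m h a T ha hm, Finset.sum_insert, Finset.sum_image (fun x _ y _ hxy => REM_up_inj _ hxy)]
  · congr 1
    · have h1 : dn a (s, h + a) = (s, h) := by
        unfold dn
        exact Prod.ext rfl (by simp)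
      rw [h1, REM_cnt1 s K m h a T ha hm, REM_rem1 s K m h a T ha hm]
    · apply Finset.sum_congr rfl
      intro z hz
      have hz2 : a ≤ z.2 := by
        unfold remv at hz
        rw [Finset.mem_filter] at hz
        exact hz.2.1
      have h1 : dn a (up (m - K) z) = up (m - K) (dn a z) := by
        unfold dn up
        exact Prod.ext rfl (by simp only []; omega)
      rw [h1, REM_cnt2 s K m h a T hm, REM_rem2 s K m h a T ha hm z hz2]
  · intro h1
    rw [Finset.mem_image] at h1
    obtain ⟨z, _, hz⟩ := h1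
    unfold up at hz
    rw [Prod.mk.injEq] at hz
    omega

end Pool.Agent.PN
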